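import Pool.Agent.H50En.Defs

/-!
The boundary of the simplex with `n + 2` vertices satisfies the hypotheses of `HigherDimensions`.
-/

set_option autoImplicit false

namespace Pool.Agent.H34En

open Finset Pool.Agent.H50En

/-- The number of `m`-subsets of a finite type which contain a given subset `e`. -/
theorem card_supersets {α : Type} [Fintype α] [DecidableEq α] (e : Finset α) (m : ℕ)
    (he : #e ≤ m) :
    #((powersetCard m (univ : Finset α)).filter (e ⊆ ·)) =
      (Fintype.card α - #e).choose (m - #e) := by
  have h : #(powersetCard (m - #e) (univ \ e)) = (Fintype.card α - #e).choose (m - #e) := by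
    rw [card_powersetCard, card_sdiff_of_subset (subset_univ e), card_univ]
  rw [← h]
  refine card_bij' (fun s _ => s \ e) (fun t _ => e ∪ t) ?_ ?_ ?_ ?_
  · intro s hs
    rw [mem_filter, mem_powersetCard] at hs
    rw [mem_powersetCard]
    refine ⟨sdiff_subset_sdiff (subset_univ s) (Subset.refl e), ?_⟩
    rw [card_sdiff_of_subset hs.2, hs.1.2]
  · intro t ht
    rw [mem_powersetCard] at ht
    rw [mem_filter, mem_powersetCard]
    have hd : Disjoint e t := by
      rw [disjoint_left]
      intro a ha hat
      exact (mem_sdiff.1 (ht.1 hat)).2 ha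
    refine ⟨⟨subset_univ _, ?_⟩, subset_union_left⟩
    rw [card_union_of_disjoint hd, ht.2]
    omega
  · intro s hs
    rw [mem_filter] at hs
    exact union_sdiff_of_subset hs.2
  · intro t ht
    rw [mem_powersetCard] at ht
    have hd : Disjoint e t := by
      rw [disjoint_left]
      intro a ha hat
      exact (mem_sdiff.1 (ht.1 hat)).2 ha
    exact union_sdiff_cancel_left hd

/-- The boundary of the simplex with vertex set `Fin (n + 2)`. -/
def bdry (n : ℕ) : Finset (Finset (Fin (n + 2))) := powersetCard (n + 1) univ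

theorem pure_bdry (n : ℕ) : Pure n (bdry n) := fun _ hT => (mem_powersetCard.1 hT).2

theorem faces_bdry {n m : ℕ} (hm : m ≤ n + 1) : faces (bdry n) m = powersetCard m univ := by
  ext σ
  simp only [faces, bdry, mem_biUnion, mem_powersetCard, subset_univ, true_and]
  constructor
  · rintro ⟨T, hT, h⟩
    exact h.2
  · intro h
    obtain ⟨T, hT, -, hc⟩ := exists_subsuperset_card_eq (subset_univ σ) (h.trans_le hm)
      (by rw [card_univ, Fintype.card_fin]; omega)
    exact ⟨T, hc, hT, h⟩

theorem simplex_hyp {n : ℕ} (hn : 3 ≤ n) :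
    (∀ e ∈ faces (bdry n) 2, #((faces (bdry n) (n - 1)).filter (e ⊆ ·)) = n.choose (n - 3)) ∧
    (∀ e ∈ faces (bdry n) 2, #((bdry n).filter (e ⊆ ·)) = n) ∧
    (∀ σ ∈ faces (bdry n) (n - 1), 3 ≤ #((bdry n).filter (σ ⊆ ·))) := by
  refine ⟨fun e he => ?_, fun e he => ?_, fun σ hσ => ?_⟩
  · rw [faces_bdry (by omega), mem_powersetCard] at he
    rw [faces_bdry (by omega), card_supersets e (n - 1) (by omega), Fintype.card_fin, he.2]
    have h1 : n - 1 - 2 = n - 3 := by omega
    rw [h1]
    rfl
  · rw [faces_bdry (by omega), mem_powersetCard] at he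
    rw [bdry, card_supersets e (n + 1) (by omega), Fintype.card_fin, he.2]
    have h1 : n + 1 - 2 = n - 1 := by omega
    have h2 : n + 2 - 2 = n := by omega
    rw [h1, h2, Nat.choose_symm_of_eq_add (show n = (n - 1) + 1 by omega), Nat.choose_one_right]
  · rw [faces_bdry (by omega), mem_powersetCard] at hσ
    rw [bdry, card_supersets σ (n + 1) (by omega), Fintype.card_fin, hσ.2]
    have h1 : n + 1 - (n - 1) = 2 := by omega
    have h2 : n + 2 - (n - 1) = 3 := by omega
    rw [h1, h2]
    decide

end Pool.Agent.H34En
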